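import Pool.Agent.Lib.H54Z.M5
import Pool.Agent.Lib.H54Z.Low

/-!
The least number `c` such that every caterpillar is nonrepetitively `c`-choosable is 4.

Upper bound: the spine is coloured greedily from its lists such that it contains no square, no
factor `w u w` with `|u| = 2` and `|w| ≥ 3` and no factor `w u w` with `|u| = 1` and `|w| = 3`; a
potential (one term for every shift `p`) shows that four colours per vertex are enough.  A leaf
avoids three colours which are determined by the colours of the spine at distance at most 6 from
its neighbour.

Lower bound: the comb with eight vertices on the spine and one leaf at each of them has no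
nonrepetitive colouring with three colours.
-/

set_option autoImplicit false

namespace Pool.Agent.Results.MP_924390_co.CaterpillarsFour

open Pool.Agent.H54Z

/-- A caterpillar: a tree containing a path `P` such that every vertex lies on `P` or is adjacent
to a vertex of `P`. -/
def IsCaterpillar {V : Type} (G : SimpleGraph V) : Prop :=
  G.IsTree ∧ ∃ (a b : V) (P : G.Walk a b), P.IsPath ∧
    ∀ v : V, v ∈ P.support ∨ ∃ u ∈ P.support, G.Adj v u

/-- No path with `2 k` vertices, `k ≥ 1`, has its first half coloured as its second half. -/
def Nonrepetitive {V : Type} (G : SimpleGraph V) (f : V → ℕ) : Prop :=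
  ∀ (u w : V) (p : G.Walk u w), p.IsPath → ∀ k : ℕ, 1 ≤ k → p.length + 1 = 2 * k →
    ¬ (∀ i : ℕ, i < k → f (p.getVert i) = f (p.getVert (i + k)))

/-- `G` is nonrepetitively `c`-choosable. -/
def Choosable {V : Type} (G : SimpleGraph V) (c : ℕ) : Prop :=
  ∀ L : V → Finset ℕ, (∀ v, c ≤ (L v).card) → ∃ f : V → ℕ, (∀ v, f v ∈ L v) ∧ Nonrepetitive G f

theorem upper (V : Type) (G : SimpleGraph V) (hG : IsCaterpillar G) : Choosable G 4 := by
  intro L hL
  obtain ⟨hT, a, b, P, hP, hcov⟩ := hG
  obtain ⟨f, hf, hrep⟩ := Four.caterpillar hT.isAcyclic (P := P.support)
    ⟨P.isChain_adj_support, hP.support_nodup⟩ hcov L hL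
  refine ⟨f, hf, ?_⟩
  intro u w p hp k hk hlen heq
  have hsl : p.support.length = 2 * k := by rw [p.length_support, hlen]
  refine hrep p.support ⟨p.isChain_adj_support, hp.support_nodup⟩
    ((p.support.map f).take k) ?_ ?_
  · intro h
    have := congrArg List.length h
    simp only [List.length_take, List.length_map, hsl, List.length_nil] at this
    omega
  · have hd : (p.support.map f).drop k = (p.support.map f).take k := by
      apply List.ext_getElem
      · simp only [List.length_drop, List.length_take, List.length_map, hsl]
        omega
      · intro i h1 h2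
        simp only [List.length_take, List.length_map, hsl] at h2
        have hik : i < k := by omega
        rw [List.getElem_drop, List.getElem_take, List.getElem_map, List.getElem_map,
          ← p.getVert_eq_support_getElem (by omega), ← p.getVert_eq_support_getElem (by omega),
          heq i hik, Nat.add_comm]
    have h := List.take_append_drop k (p.support.map f)
    rw [hd] at h
    exact h.symm

/-- The least number `c` such that every caterpillar is nonrepetitively `c`-choosable is 4. -/
theorem result :
    IsLeast {c : ℕ | ∀ (V : Type) [Fintype V] (G : SimpleGraph V), IsCaterpillar G →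
      Choosable G c} 4 := by
  refine ⟨fun V _ G hG => upper V G hG, ?_⟩
  intro c hc
  by_contra hlt
  have hc3 : c ≤ 3 := by omega
  obtain ⟨f, hf, hrep⟩ := hc (Fin 16) Low.G ⟨Low.isTree, Low.spine⟩ (fun _ => Finset.range 3)
    (by intro v; simpa using hc3)
  obtain ⟨u, w, p, hp, k, hk, hl, h⟩ := Low.not_three f (fun v => by simpa using hf v)
  exact hrep u w p hp k hk hl h

end Pool.Agent.Results.MP_924390_co.CaterpillarsFour
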