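import Pool.Agent.Lib.H54P.C3
import Pool.Agent.Lib.H54Q.Q15

/-!
The nonrepetitive choice number of trees of path-width `k` grows linearly: the least `f(k)` such
that every finite tree of path-width at most `k` is nonrepetitively `f(k)`-choosable exists and
satisfies `2 k + 1 ≤ f(k) ≤ 52 k + 68`.
-/

set_option autoImplicit false

namespace Pool.Agent.Results.MP_924390_co.TreesOfPathwidth

open Pool.Agent.H54P

/-- `G` has a path-decomposition `B 0, B 1, ...` of width at most `k`. -/
def PathWidthLE {V : Type} (G : SimpleGraph V) (k : ℕ) : Prop :=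
  ∃ B : ℕ → Finset V, (∀ i, (B i).card ≤ k + 1) ∧ (∀ v : V, ∃ i, v ∈ B i) ∧
    (∀ u v : V, G.Adj u v → ∃ i, u ∈ B i ∧ v ∈ B i) ∧
    (∀ (v : V) (i j m : ℕ), i ≤ j → j ≤ m → v ∈ B i → v ∈ B m → v ∈ B j)

/-- No path with `2 k` vertices, `k ≥ 1`, has its first half coloured as its second half. -/
def Nonrepetitive {V : Type} (G : SimpleGraph V) (f : V → ℕ) : Prop :=
  ∀ (u w : V) (p : G.Walk u w), p.IsPath → ∀ k : ℕ, 1 ≤ k → p.length + 1 = 2 * k →
    ¬ (∀ i : ℕ, i < k → f (p.getVert i) = f (p.getVert (i + k)))

/-- `G` is nonrepetitively `c`-choosable. -/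
def Choosable {V : Type} (G : SimpleGraph V) (c : ℕ) : Prop :=
  ∀ L : V → Finset ℕ, (∀ v, c ≤ (L v).card) → ∃ f : V → ℕ, (∀ v, f v ∈ L v) ∧ Nonrepetitive G f

theorem upper (k : ℕ) (V : Type) [Fintype V] (G : SimpleGraph V) (hG : G.IsTree)
    (hk : PathWidthLE G k) : Choosable G (52 * k + 68) := by
  intro L hL
  obtain ⟨B, hcard, hv, he, hconv⟩ := hk
  obtain ⟨f, hf, hrep⟩ := main3 k G hG B hcard hv he hconv L hL
  refine ⟨f, hf, ?_⟩
  intro u w p hp k hk hlen heq
  have hsl : p.support.length = 2 * k := by rw [p.length_support, hlen]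
  refine hrep p.support p.isChain_adj_support hp.support_nodup
    ((p.support.map f).take k) ?_ ?_
  · intro h
    have := congrArg List.length h
    simp only [List.length_take, List.length_map, hsl, List.length_nil] at this
    omega
  · have hd : (p.support.map f).drop k = (p.support.map f).take k := by
      apply List.ext_getElem
      · simp only [List.length_drop, List.length_take, List.length_map, hsl]
        omega
      · intro i h1 h2
        simp only [List.length_take, List.length_map, hsl] at h2
        have hik : i < k := by omega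
        rw [List.getElem_drop, List.getElem_take, List.getElem_map, List.getElem_map,
          ← p.getVert_eq_support_getElem (by omega), ← p.getVert_eq_support_getElem (by omega),
          heq i hik, Nat.add_comm]
    have h := List.take_append_drop k (p.support.map f)
    rw [hd] at h
    exact h.symm

theorem lower (k : ℕ) : ∃ (V : Type) (_ : Fintype V) (G : SimpleGraph V), G.IsTree ∧
    PathWidthLE G k ∧ ¬ Choosable G (2 * k) := by
  obtain ⟨V, hV, G, hG, hB, L, hL, hf⟩ := Pool.Agent.H54Q.lower2 k
  refine ⟨V, hV, G, hG, hB, ?_⟩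
  intro hch
  obtain ⟨f, hf1, hf2⟩ := hch L (fun v => (hL v).ge)
  obtain ⟨u, w, p, m, h1, h2, h3, h4⟩ := hf f hf1
  exact hf2 u w p h1 m h2 h3 h4

/-- The least `c` such that every finite tree of path-width at most `k` is nonrepetitively
`c`-choosable exists and lies between `2 k + 1` and `52 k + 68`. -/
theorem result (k : ℕ) : ∃ c : ℕ, 2 * k + 1 ≤ c ∧ c ≤ 52 * k + 68 ∧
    IsLeast {c : ℕ | ∀ (V : Type) [Fintype V] (G : SimpleGraph V), G.IsTree → PathWidthLE G k →
      Choosable G c} c := by
  classical
  have hex : ∃ c : ℕ, ∀ (V : Type) [Fintype V] (G : SimpleGraph V), G.IsTree →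
      PathWidthLE G k → Choosable G c :=
    ⟨52 * k + 68, fun V _ G hG hk => upper k V G hG hk⟩
  refine ⟨Nat.find hex, ?_, Nat.find_min' hex fun V _ G hG hk => upper k V G hG hk,
    Nat.find_spec hex, fun c hc => Nat.find_min' hex hc⟩
  by_contra hlt
  obtain ⟨V, hV, G, hG, hB, hnot⟩ := lower k
  refine hnot ?_
  intro L hL
  exact Nat.find_spec hex V G hG hB L (fun v => le_trans (by omega) (hL v))

end Pool.Agent.Results.MP_924390_co.TreesOfPathwidth
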