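import Pool.Agent.Lib.H54PT.M14

/-!
Every tree of path-width at most 2 is nonrepetitively 14-choosable.
-/

set_option autoImplicit false

namespace Pool.Agent.Results.MP_924390_co.TreesOfPathwidthTwo

open Pool.Agent.H54R

/-- `G` has a path-decomposition `B 0, B 1, ...` of width at most `k`. -/
def PathWidthLE {V : Type} (G : SimpleGraph V) (k : ℕ) : Prop :=
  ∃ B : ℕ → Finset V, (∀ i, (B i).card ≤ k + 1) ∧ (∀ v : V, ∃ i, v ∈ B i) ∧
    (∀ u v : V, G.Adj u v → ∃ i, u ∈ B i ∧ v ∈ B i) ∧
    (∀ (v : V) (i j m : ℕ), i ≤ j → j ≤ m → v ∈ B i → v ∈ B m → v ∈ B j)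

/-- No path with `2 k` vertices, `k ≥ 1`, has its first half coloured as its second half. -/
def Nonrepetitive {V : Type} (G : SimpleGraph V) (f : V → ℕ) : Prop :=
  ∀ (u w : V) (p : G.Walk u w), p.IsPath → ∀ k : ℕ, 1 ≤ k → p.length + 1 = 2 * k →
    ¬ (∀ i : ℕ, i < k → f (p.getVert i) = f (p.getVert (i + k)))

/-- `G` is nonrepetitively `c`-choosable. -/
def Choosable {V : Type} (G : SimpleGraph V) (c : ℕ) : Prop :=
  ∀ L : V → Finset ℕ, (∀ v, c ≤ (L v).card) → ∃ f : V → ℕ, (∀ v, f v ∈ L v) ∧ Nonrepetitive G f

/-- Every tree of path-width at most 2 is nonrepetitively 14-choosable. -/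
theorem result (V : Type) [Fintype V] (G : SimpleGraph V) (hG : G.IsTree)
    (h2 : PathWidthLE G 2) : Choosable G 14 := by
  intro L hL
  obtain ⟨B, hcard, hv, he, hconv⟩ := h2
  obtain ⟨f, hf, hrep⟩ := main14 G hG B hcard hv he hconv L hL
  refine ⟨f, hf, ?_⟩
  intro u w p hp k hk hlen heq
  have hsl : p.support.length = 2 * k := by rw [p.length_support, hlen]
  refine hrep p.support ⟨p.isChain_adj_support, hp.support_nodup⟩
    ((p.support.map f).take k) ?_ ?_
  · intro h
    have := congrArg List.length h
    simp only [List.length_take, List.length_map, hsl, List.length_nil] at this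
    omega
  · have hd : (p.support.map f).drop k = (p.support.map f).take k := by
      apply List.ext_getElem
      · simp only [List.length_drop, List.length_take, List.length_map, hsl]
        omega
      · intro i h1 h2
        simp only [List.length_take, List.length_map, hsl] at h2
        have hik : i < k := by omega
        rw [List.getElem_drop, List.getElem_take, List.getElem_map, List.getElem_map,
          ← p.getVert_eq_support_getElem (by omega), ← p.getVert_eq_support_getElem (by omega),
          heq i hik, Nat.add_comm]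
    have h := List.take_append_drop k (p.support.map f)
    rw [hd] at h
    exact h.symm

end Pool.Agent.Results.MP_924390_co.TreesOfPathwidthTwo
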